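import Mathlib

/-!
# Weighted graphs: weights between sets, volumes

`w : V → V → ℝ` is a symmetric nonnegative weight; `E w X Y` is the total weight between `X` and
`Y`, and `E w X univ` is the volume of `X`.
-/

set_option linter.unusedSectionVars false

namespace Pool.Agent.H85.Thin

open Finset

variable {V : Type} [Fintype V] [DecidableEq V]

/-- the total weight between `X` and `Y` -/
def E (w : V → V → ℝ) (X Y : Finset V) : ℝ := ∑ u ∈ X, ∑ v ∈ Y, w u v

section

variable {w : V → V → ℝ}

theorem E_nonneg (hw : ∀ u v, 0 ≤ w u v) (X Y : Finset V) : 0 ≤ E w X Y :=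
  Finset.sum_nonneg fun _ _ => Finset.sum_nonneg fun _ _ => hw _ _

theorem E_union_left {X X' : Finset V} (h : Disjoint X X') (Y : Finset V) :
    E w (X ∪ X') Y = E w X Y + E w X' Y := by
  unfold E
  rw [Finset.sum_union h]

theorem E_union_right (X : Finset V) {Y Y' : Finset V} (h : Disjoint Y Y') :
    E w X (Y ∪ Y') = E w X Y + E w X Y' := by
  unfold E
  rw [← Finset.sum_add_distrib]
  refine Finset.sum_congr rfl fun u _ => ?_
  rw [Finset.sum_union h]

theorem E_comm (hs : ∀ u v, w u v = w v u) (X Y : Finset V) : E w X Y = E w Y X := by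
  unfold E
  rw [Finset.sum_comm]
  exact Finset.sum_congr rfl fun v _ => Finset.sum_congr rfl fun u _ => hs u v

theorem E_mono (hw : ∀ u v, 0 ≤ w u v) {X X' Y Y' : Finset V} (hX : X ⊆ X') (hY : Y ⊆ Y') :
    E w X Y ≤ E w X' Y' := by
  unfold E
  refine (Finset.sum_le_sum fun u _ => ?_).trans
    (Finset.sum_le_sum_of_subset_of_nonneg hX fun u _ _ => Finset.sum_nonneg fun v _ => hw u v)
  exact Finset.sum_le_sum_of_subset_of_nonneg hY fun v _ _ => hw u v

theorem E_empty_left (Y : Finset V) : E w ∅ Y = 0 := by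
  simp [E]

theorem E_empty_right (X : Finset V) : E w X ∅ = 0 := by
  simp [E]

theorem E_singleton (v : V) (Y : Finset V) : E w {v} Y = ∑ u ∈ Y, w v u := by
  simp [E]

theorem E_sum_left (X Y : Finset V) : E w X Y = ∑ v ∈ X, E w {v} Y := by
  simp [E]

/-- volume splits -/
theorem E_split (X Y : Finset V) : E w X univ = E w X Y + E w X (univ \ Y) := by
  rw [← E_union_right X Finset.disjoint_sdiff, Finset.union_sdiff_of_subset (Finset.subset_univ _)]

theorem E_split_left {X Y : Finset V} (h : Y ⊆ X) (Z : Finset V) :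
    E w X Z = E w Y Z + E w (X \ Y) Z := by
  rw [← E_union_left Finset.disjoint_sdiff, Finset.union_sdiff_of_subset h]

theorem E_split_right {X Y : Finset V} (h : Y ⊆ X) (Z : Finset V) :
    E w Z X = E w Z Y + E w Z (X \ Y) := by
  rw [← E_union_right Z Finset.disjoint_sdiff, Finset.union_sdiff_of_subset h]

/-- a lower bound for the degrees gives one for the volumes -/
theorem card_le_vol {κ : ℝ} (hk : ∀ v, κ ≤ E w {v} univ) (X : Finset V) :
    κ * X.card ≤ E w X univ := by
  rw [E_sum_left, mul_comm, ← nsmul_eq_mul]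
  exact Finset.card_nsmul_le_sum _ _ _ fun v _ => hk v

theorem vol_pos {κ : ℝ} (hκ : 0 < κ) (hk : ∀ v, κ ≤ E w {v} univ) {X : Finset V}
    (hX : X.Nonempty) : 0 < E w X univ := by
  have h1 : (0 : ℝ) < X.card := by exact_mod_cast hX.card_pos
  have h2 := card_le_vol hk X
  have h3 : 0 < κ * X.card := mul_pos hκ h1
  linarith

end

end Pool.Agent.H85.Thin
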