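import Pool.Agent.H85.Thin.Basic

/-!
# Partition into expanders

If there are `l` disjoint nonempty sets of conductance at most `t` but no `l + 1` disjoint nonempty
sets of conductance at most `t' > t`, then `V` has a partition into `l` parts which are internally
expanding with respect to the volumes of the whole graph.
-/

set_option linter.unusedSectionVars false

namespace Pool.Agent.H85.Thin

open Finset

variable {V : Type} [Fintype V] [DecidableEq V] {w : V → V → ℝ}

/-- the weight of the cut between `X` and its complement -/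
def cut (w : V → V → ℝ) (X : Finset V) : ℝ := E w X (univ \ X)

/-- families of `l` disjoint nonempty sets, all of conductance at most `t` -/
def Fam (w : V → V → ℝ) (l : ℕ) (t : ℝ) (S : Fin l → Finset V) : Prop :=
  (∀ i, (S i).Nonempty) ∧ (∀ i j, i ≠ j → Disjoint (S i) (S j)) ∧
    ∀ i, cut w (S i) ≤ t * E w (S i) univ

theorem cut_le_vol (hw : ∀ u v, 0 ≤ w u v) (X : Finset V) : cut w X ≤ E w X univ :=
  E_mono hw subset_rfl (Finset.subset_univ _)

theorem Fam.cons {l : ℕ} {t t' : ℝ} {S : Fin l → Finset V} (hw : ∀ u v, 0 ≤ w u v)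
    (h : Fam w l t S) (htt : t ≤ t') {Z : Finset V} (hZ : Z.Nonempty)
    (hd : ∀ j, Disjoint Z (S j)) (hc : cut w Z ≤ t' * E w Z univ) :
    Fam w (l + 1) t' (Fin.cons Z S) := by
  refine ⟨fun i => ?_, fun i j hij => ?_, fun i => ?_⟩
  · refine Fin.cases ?_ (fun i => ?_) i
    · simpa using hZ
    · simpa using h.1 i
  · revert hij
    refine Fin.cases ?_ (fun i => ?_) i
    · refine Fin.cases ?_ (fun j => ?_) j
      · intro h0
        exact absurd rfl h0
      · intro _
        simpa using hd j
    · refine Fin.cases ?_ (fun j => ?_) j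
      · intro _
        simpa using (hd i).symm
      · intro hij
        have : i ≠ j := fun e => hij (by rw [e])
        simpa using h.2.1 i j this
  · refine Fin.cases ?_ (fun i => ?_) i
    · simpa using hc
    · simp only [Fin.cons_succ]
      exact (h.2.2 i).trans (mul_le_mul_of_nonneg_right htt (E_nonneg hw _ _))

theorem Fam.update {l : ℕ} {t t' : ℝ} {S : Fin l → Finset V} (hw : ∀ u v, 0 ≤ w u v)
    (h : Fam w l t S) (htt : t ≤ t') {i : Fin l} {Y : Finset V} (hY : Y.Nonempty)
    (hd : Y ⊆ S i) (hc : cut w Y ≤ t' * E w Y univ) :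
    Fam w l t' (Function.update S i Y) := by
  refine ⟨fun j => ?_, fun a b hab => ?_, fun j => ?_⟩
  · by_cases hj : j = i
    · subst hj
      simpa using hY
    · rw [Function.update_of_ne hj]
      exact h.1 j
  · by_cases ha : a = i
    · subst ha
      rw [Function.update_self, Function.update_of_ne (Ne.symm hab)]
      exact (h.2.1 a b hab).mono_left hd
    · rw [Function.update_of_ne ha]
      by_cases hb : b = i
      · subst hb
        rw [Function.update_self]
        exact (h.2.1 a b hab).mono_right hd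
      · rw [Function.update_of_ne hb]
        exact h.2.1 a b hab
  · by_cases hj : j = i
    · subst hj
      rw [Function.update_self]
      exact hc
    · rw [Function.update_of_ne hj]
      exact (h.2.2 j).trans (mul_le_mul_of_nonneg_right htt (E_nonneg hw _ _))

/-- cores of minimal conductance -/
theorem exists_cores {κ : ℝ} (hκ : 0 < κ) (hk : ∀ v, κ ≤ E w {v} univ)
    (hw : ∀ u v, 0 ≤ w u v) {l : ℕ} {t : ℝ} (hex : ∃ S : Fin l → Finset V, Fam w l t S) :
    ∃ S : Fin l → Finset V, Fam w l t S ∧ ∀ i, ∀ Y ⊆ S i, Y.Nonempty →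
      cut w (S i) * E w Y univ ≤ cut w Y * E w (S i) univ := by
  classical
  obtain ⟨S0, hS0⟩ := hex
  have hne : ((univ : Finset (Fin l → Finset V)).filter fun S => Fam w l t S).Nonempty :=
    ⟨S0, by simp [hS0]⟩
  obtain ⟨S, hS, hmin⟩ := Finset.exists_min_image _
    (fun S : Fin l → Finset V => ∑ i, cut w (S i) / E w (S i) univ) hne
  have hF : Fam w l t S := by simpa using hS
  refine ⟨S, hF, fun i Y hY hYn => ?_⟩
  by_contra hcon
  push Not at hcon
  have hvS : 0 < E w (S i) univ := vol_pos hκ hk (hF.1 i)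
  have hvY : 0 < E w Y univ := vol_pos hκ hk hYn
  have h1 : cut w Y / E w Y univ < cut w (S i) / E w (S i) univ := by
    rw [div_lt_div_iff₀ hvY hvS]
    exact hcon
  have h2 : cut w (S i) / E w (S i) univ ≤ t := by
    rw [div_le_iff₀ hvS]
    exact hF.2.2 i
  have h3 : cut w Y ≤ t * E w Y univ := by
    rw [← div_le_iff₀ hvY]
    exact h1.le.trans h2
  have h4 := hF.update hw le_rfl hYn hY h3
  have h5 := hmin (Function.update S i Y) (by simpa using h4)
  have h6 : ∑ j, cut w (Function.update S i Y j) / E w (Function.update S i Y j) univ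
      < ∑ j, cut w (S j) / E w (S j) univ := by
    refine Finset.sum_lt_sum (fun j _ => ?_) ⟨i, Finset.mem_univ _, ?_⟩
    · by_cases hj : j = i
      · subst hj
        rw [Function.update_self]
        exact h1.le
      · rw [Function.update_of_ne hj]
    · rw [Function.update_self]
      exact h1
  linarith

theorem cut_add_cut (hs : ∀ u v, w u v = w v u) {X U : Finset V} (hX : X ⊆ U) :
    cut w X + cut w (U \ X) = cut w U + 2 * E w X (U \ X) := by
  have e1 : univ \ X = (univ \ U) ∪ (U \ X) := by
    ext v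
    simp only [mem_sdiff, mem_univ, true_and, mem_union]
    constructor
    · intro h
      by_cases hU : v ∈ U
      · exact Or.inr ⟨hU, h⟩
      · exact Or.inl hU
    · rintro (h | ⟨_, h⟩)
      · exact fun h' => h (hX h')
      · exact h
  have d1 : Disjoint (univ \ U) (U \ X) := by
    rw [Finset.disjoint_left]
    intro v hv hv'
    simp only [mem_sdiff, mem_univ, true_and] at hv hv'
    exact hv hv'.1
  have e2 : univ \ (U \ X) = (univ \ U) ∪ X := by
    ext v
    simp only [mem_sdiff, mem_univ, true_and, mem_union]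
    constructor
    · intro h
      by_cases hX' : v ∈ X
      · exact Or.inr hX'
      · exact Or.inl fun hU => h ⟨hU, hX'⟩
    · rintro (h | h)
      · exact fun h' => h h'.1
      · exact fun h' => h'.2 h
  have d2 : Disjoint (univ \ U) X := by
    rw [Finset.disjoint_left]
    intro v hv hv'
    simp only [mem_sdiff, mem_univ, true_and] at hv
    exact hv (hX hv')
  unfold cut
  rw [e1, e2, E_union_right _ d1, E_union_right _ d2, E_split_left hX (univ \ U),
    E_comm hs (U \ X) X]
  ring

/-- the cores expand internally -/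
theorem core_expand {κ : ℝ} (hκ : 0 < κ) (hk : ∀ v, κ ≤ E w {v} univ)
    (hw : ∀ u v, 0 ≤ w u v) (hs : ∀ u v, w u v = w v u) {l : ℕ} {t t' : ℝ} (htt : t ≤ t')
    {S : Fin l → Finset V} (hS : Fam w l t S)
    (hmin : ∀ i, ∀ Y ⊆ S i, Y.Nonempty → cut w (S i) * E w Y univ ≤ cut w Y * E w (S i) univ)
    (hno : ¬ ∃ S : Fin (l + 1) → Finset V, Fam w (l + 1) t' S) {i : Fin l} {X : Finset V}
    (hX : X ⊆ S i) :
    (t' - t) / 2 * E w X univ ≤ E w X (S i \ X) ∨
      (t' - t) / 2 * E w (S i \ X) univ ≤ E w X (S i \ X) := by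
  by_contra hcon
  push Not at hcon
  obtain ⟨hc1, hc2⟩ := hcon
  have h0 : 0 ≤ E w X (S i \ X) := E_nonneg hw _ _
  have hXn : X.Nonempty := by
    rw [Finset.nonempty_iff_ne_empty]
    intro h
    subst h
    rw [E_empty_left, E_empty_left, mul_zero] at hc1
    exact lt_irrefl _ hc1
  have hYn : (S i \ X).Nonempty := by
    rw [Finset.nonempty_iff_ne_empty]
    intro h
    rw [h, E_empty_left, E_empty_right, mul_zero] at hc2
    exact lt_irrefl _ hc2
  have hvS : 0 < E w (S i) univ := vol_pos hκ hk (hS.1 i)
  have hsum := cut_add_cut hs hX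
  have hvol := E_split_left (w := w) hX univ
  have hcS := hS.2.2 i
  -- both pieces have small conductance
  have key : ∀ A B : Finset V, A ⊆ S i → B ⊆ S i → B.Nonempty →
      cut w A + cut w B = cut w (S i) + 2 * E w X (S i \ X) →
      E w (S i) univ = E w A univ + E w B univ →
      E w X (S i \ X) < (t' - t) / 2 * E w A univ → cut w A ≤ t' * E w A univ := by
    intro A B hA hB hBn h1 h2 h3
    have h4 := hmin i B hB hBn
    have hvA : 0 ≤ E w A univ := E_nonneg hw _ _
    have h5 : cut w A * E w (S i) univ ≤ (t * E w A univ + 2 * E w X (S i \ X)) * E w (S i) univ := by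
      have e1 : cut w A = cut w (S i) + 2 * E w X (S i \ X) - cut w B := by linarith
      have e2 : cut w (S i) * E w A univ ≤ t * E w (S i) univ * E w A univ :=
        mul_le_mul_of_nonneg_right hcS hvA
      have e3 : E w B univ = E w (S i) univ - E w A univ := by linarith
      rw [e3] at h4
      rw [e1]
      nlinarith
    have h6 := le_of_mul_le_mul_right h5 hvS
    linarith
  have hA := key X (S i \ X) hX Finset.sdiff_subset hYn hsum hvol hc1
  have hB := key (S i \ X) X Finset.sdiff_subset hX hXn (by linarith) (by linarith) hc2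
  have hF1 := hS.update hw htt hYn Finset.sdiff_subset hB
  refine hno ⟨_, hF1.cons hw le_rfl hXn (fun j => ?_) hA⟩
  by_cases hj : j = i
  · subst hj
    rw [Function.update_self]
    exact Finset.disjoint_sdiff
  · rw [Function.update_of_ne hj]
    exact (hS.2.1 i j (Ne.symm hj)).mono_left hX

/-- the parts of a labelling -/
def part {l : ℕ} (f : V → Fin l) (i : Fin l) : Finset V := univ.filter fun v => f v = i

theorem mem_part {l : ℕ} {f : V → Fin l} {i : Fin l} {v : V} : v ∈ part f i ↔ f v = i := by
  simp [part]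

/-- twice the total weight between the parts -/
def cost {l : ℕ} (w : V → V → ℝ) (f : V → Fin l) : ℝ := ∑ u, ∑ v, if f u = f v then 0 else w u v

theorem cost_move {l : ℕ} (hs : ∀ u v, w u v = w v u) (f : V → Fin l) {i j : Fin l} (hij : i ≠ j)
    {Z : Finset V} (hZ : Z ⊆ part f i) :
    cost w (fun v => if v ∈ Z then j else f v) - cost w f
      = 2 * (E w Z (part f i \ Z) - E w Z (part f j)) := by
  have hfZ : ∀ u ∈ Z, f u = i := fun u hu => mem_part.1 (hZ hu)
  -- the summand of the difference
  have hone : ∀ u ∈ Z, ∑ v ∈ Zᶜ, ((if j = f v then 0 else w u v) - (if i = f v then 0 else w u v))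
      = ∑ v ∈ part f i \ Z, w u v - ∑ v ∈ part f j, w u v := by
    intro u _
    have h1 : ∀ v, ((if j = f v then 0 else w u v) - (if i = f v then 0 else w u v))
        = (if f v = i then w u v else 0) - (if f v = j then w u v else 0) := by
      intro v
      by_cases h : f v = i
      · have h' : f v ≠ j := fun e => hij (h.symm.trans e)
        simp [h, hij, Ne.symm hij]
      · by_cases h' : f v = j
        · simp [h', hij, Ne.symm hij]
        · simp [h, h', Ne.symm h, Ne.symm h']
    simp only [h1]
    rw [Finset.sum_sub_distrib]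
    congr 1
    · rw [← Finset.sum_filter]
      refine Finset.sum_congr ?_ fun _ _ => rfl
      ext v
      simp only [mem_filter, mem_compl, mem_sdiff, mem_part]
      tauto
    · rw [← Finset.sum_filter]
      refine Finset.sum_congr ?_ fun _ _ => rfl
      ext v
      simp only [mem_filter, mem_compl, mem_part]
      constructor
      · rintro ⟨_, h⟩
        exact h
      · intro h
        exact ⟨fun hv => hij ((hfZ v hv).symm.trans h), h⟩
  have hA : ∑ u ∈ Z, ∑ v ∈ Zᶜ, ((if j = f v then 0 else w u v) - (if i = f v then 0 else w u v))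
      = E w Z (part f i \ Z) - E w Z (part f j) := by
    rw [Finset.sum_congr rfl hone, Finset.sum_sub_distrib]
    rfl
  -- split the two costs
  have hsplit : ∀ a : V → V → ℝ, ∑ u, ∑ v, a u v = ∑ u ∈ Z, ∑ v ∈ Z, a u v
      + ∑ u ∈ Z, ∑ v ∈ Zᶜ, a u v + (∑ u ∈ Zᶜ, ∑ v ∈ Z, a u v + ∑ u ∈ Zᶜ, ∑ v ∈ Zᶜ, a u v) := by
    intro a
    rw [← Finset.sum_add_sum_compl Z, ← Finset.sum_add_distrib, ← Finset.sum_add_distrib]
    congr 1
    · exact Finset.sum_congr rfl fun u _ => (Finset.sum_add_sum_compl Z _).symm
    · exact Finset.sum_congr rfl fun u _ => (Finset.sum_add_sum_compl Z _).symm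
  unfold cost
  rw [hsplit, hsplit (fun u v => if f u = f v then 0 else w u v)]
  have z1 : ∑ u ∈ Z, ∑ v ∈ Z, (if (if u ∈ Z then j else f u) = (if v ∈ Z then j else f v) then 0
      else w u v) = 0 := by
    refine Finset.sum_eq_zero fun u hu => Finset.sum_eq_zero fun v hv => ?_
    simp [hu, hv]
  have z2 : ∑ u ∈ Z, ∑ v ∈ Z, (if f u = f v then 0 else w u v) = 0 := by
    refine Finset.sum_eq_zero fun u hu => Finset.sum_eq_zero fun v hv => ?_
    simp [hfZ u hu, hfZ v hv]
  have z3 : ∑ u ∈ Zᶜ, ∑ v ∈ Zᶜ, (if (if u ∈ Z then j else f u) = (if v ∈ Z then j else f v) then 0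
      else w u v) = ∑ u ∈ Zᶜ, ∑ v ∈ Zᶜ, (if f u = f v then 0 else w u v) := by
    refine Finset.sum_congr rfl fun u hu => Finset.sum_congr rfl fun v hv => ?_
    rw [if_neg (Finset.mem_compl.1 hu), if_neg (Finset.mem_compl.1 hv)]
  have z4 : ∑ u ∈ Z, ∑ v ∈ Zᶜ, (if (if u ∈ Z then j else f u) = (if v ∈ Z then j else f v) then 0
      else w u v) = ∑ u ∈ Z, ∑ v ∈ Zᶜ, (if j = f v then 0 else w u v) := by
    refine Finset.sum_congr rfl fun u hu => Finset.sum_congr rfl fun v hv => ?_
    rw [if_pos hu, if_neg (Finset.mem_compl.1 hv)]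
  have z5 : ∑ u ∈ Z, ∑ v ∈ Zᶜ, (if f u = f v then 0 else w u v)
      = ∑ u ∈ Z, ∑ v ∈ Zᶜ, (if i = f v then 0 else w u v) := by
    refine Finset.sum_congr rfl fun u hu => Finset.sum_congr rfl fun v hv => ?_
    rw [hfZ u hu]
  have z6 : ∑ u ∈ Zᶜ, ∑ v ∈ Z, (if (if u ∈ Z then j else f u) = (if v ∈ Z then j else f v) then 0
      else w u v) = ∑ u ∈ Z, ∑ v ∈ Zᶜ, (if j = f v then 0 else w u v) := by
    rw [Finset.sum_comm]
    refine Finset.sum_congr rfl fun u hu => Finset.sum_congr rfl fun v hv => ?_
    rw [if_pos hu, if_neg (Finset.mem_compl.1 hv), hs v u]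
    simp only [eq_comm]
  have z7 : ∑ u ∈ Zᶜ, ∑ v ∈ Z, (if f u = f v then 0 else w u v)
      = ∑ u ∈ Z, ∑ v ∈ Zᶜ, (if i = f v then 0 else w u v) := by
    rw [Finset.sum_comm]
    refine Finset.sum_congr rfl fun u hu => Finset.sum_congr rfl fun v hv => ?_
    rw [hfZ u hu, hs v u]
    simp only [eq_comm]
  rw [z1, z2, z3, z4, z5, z6, z7, ← hA]
  simp only [Finset.sum_sub_distrib]
  ring

theorem cut_eq_sum {l : ℕ} (f : V → Fin l) (Z : Finset V) :
    cut w Z = ∑ j, E w Z (part f j \ Z) := by
  have h : ∀ u, ∑ v ∈ univ \ Z, w u v = ∑ j, ∑ v ∈ part f j \ Z, w u v := by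
    intro u
    rw [← Finset.sum_fiberwise_of_maps_to (t := univ) (g := f) (fun v _ => Finset.mem_univ _)]
    refine Finset.sum_congr rfl fun j _ => ?_
    refine Finset.sum_congr ?_ fun _ _ => rfl
    ext v
    simp only [mem_filter, mem_sdiff, mem_univ, true_and, mem_part]
    tauto
  unfold cut E
  rw [Finset.sum_congr rfl fun u _ => h u]
  exact Finset.sum_comm

theorem exists_partition {κ : ℝ} (hκ : 0 < κ) (hk : ∀ v, κ ≤ E w {v} univ)
    (hw : ∀ u v, 0 ≤ w u v) (hs : ∀ u v, w u v = w v u) {l : ℕ} (hl : 0 < l) {t t' a : ℝ}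
    (ht : 0 ≤ t) (htt : t < t') (ht1 : t' ≤ 1) (ha : 0 < a) (ha1 : l * a ≤ t')
    (hex : ∃ S : Fin l → Finset V, Fam w l t S)
    (hno : ¬ ∃ S : Fin (l + 1) → Finset V, Fam w (l + 1) t' S) :
    ∃ f : V → Fin l, (∀ i, (part f i).Nonempty) ∧ ∀ i, ∀ B ⊆ part f i,
      (t' - t) / 2 * a / 3 * E w B univ ≤ E w B (part f i \ B) ∨
      (t' - t) / 2 * a / 3 * E w (part f i \ B) univ ≤ E w B (part f i \ B) := by
  classical
  obtain ⟨S, hS, hmin⟩ := exists_cores hκ hk hw hex
  have hne : ((univ : Finset (V → Fin l)).filter fun f => ∀ i, S i ⊆ part f i).Nonempty := by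
    refine ⟨fun v => if h : ∃ i, v ∈ S i then h.choose else ⟨0, hl⟩, ?_⟩
    simp only [mem_filter, mem_univ, true_and]
    intro i v hv
    rw [mem_part]
    have h : ∃ i, v ∈ S i := ⟨i, hv⟩
    rw [dif_pos h]
    by_contra hne
    exact (Finset.disjoint_left.1 (hS.2.1 _ _ hne) h.choose_spec) hv
  obtain ⟨f, hf, hfmin⟩ := Finset.exists_min_image _ (fun f : V → Fin l => cost w f) hne
  have hSf : ∀ i, S i ⊆ part f i := by simpa using hf
  refine ⟨f, fun i => (hS.1 i).mono (hSf i), ?_⟩
  -- moving a set outside of the cores does not help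
  have hmove : ∀ i j : Fin l, i ≠ j → ∀ Z ⊆ part f i \ S i,
      E w Z (part f j) ≤ E w Z (part f i \ Z) := by
    intro i j hij Z hZ
    have hZ' : Z ⊆ part f i := hZ.trans Finset.sdiff_subset
    have h1 := cost_move hs f hij hZ'
    have h2 := hfmin (fun v => if v ∈ Z then j else f v) (by
      simp only [mem_filter, mem_univ, true_and]
      intro i' v hv
      have hvf : f v = i' := mem_part.1 (hSf i' hv)
      have hvZ : v ∉ Z := by
        intro hvZ
        have h3 := Finset.mem_sdiff.1 (hZ hvZ)
        have h4 : f v = i := mem_part.1 h3.1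
        apply h3.2
        rw [← h4, hvf]
        exact hv
      rw [mem_part, if_neg hvZ]
      exact hvf)
    linarith
  set b : ℝ := (t' - t) / 2 with hb
  have hb0 : 0 < b := by rw [hb]; linarith
  have hb1 : b ≤ 1 := by rw [hb]; linarith
  have hl1 : (1 : ℝ) ≤ l := by exact_mod_cast hl
  have ha2 : a ≤ 1 := by nlinarith
  -- the main estimate
  have hmain : ∀ i, ∀ A ⊆ part f i, b * E w (A ∩ S i) univ ≤ E w A (part f i \ A) →
      b * a / 3 * E w A univ ≤ E w A (part f i \ A) := by
    intro i A hA hcore
    have hZsub : A \ S i ⊆ part f i \ S i := Finset.sdiff_subset_sdiff hA subset_rfl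
    have hvolA : E w A univ = E w (A ∩ S i) univ + E w (A \ S i) univ := by
      rw [← E_union_left (Finset.disjoint_sdiff_inter A (S i)).symm, Finset.union_comm,
        Finset.sdiff_union_inter]
    have hE0 : 0 ≤ E w A (part f i \ A) := E_nonneg hw _ _
    have hX0 : 0 ≤ E w (A ∩ S i) univ := E_nonneg hw _ _
    have hZ0 : 0 ≤ E w (A \ S i) univ := E_nonneg hw _ _
    have hZb : a * E w (A \ S i) univ ≤ E w A (part f i \ A) + E w (A ∩ S i) univ := by
      rcases Finset.eq_empty_or_nonempty (A \ S i) with hem | hZn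
      · rw [hem, E_empty_left, mul_zero]
        linarith
      · have hcut : t' * E w (A \ S i) univ < cut w (A \ S i) := by
          by_contra hcon
          push Not at hcon
          refine hno ⟨_, hS.cons hw htt.le hZn (fun j => ?_) hcon⟩
          rw [Finset.disjoint_left]
          intro v hv hvj
          have h3 := Finset.mem_sdiff.1 (hZsub hv)
          have h4 : f v = i := mem_part.1 h3.1
          have h5 : f v = j := mem_part.1 (hSf j hvj)
          apply h3.2
          rw [← h4, h5]
          exact hvj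
        have hcut2 : cut w (A \ S i) ≤ l * E w (A \ S i) (part f i \ (A \ S i)) := by
          rw [cut_eq_sum f]
          have h6 : ∀ j ∈ (univ : Finset (Fin l)), E w (A \ S i) (part f j \ (A \ S i))
              ≤ E w (A \ S i) (part f i \ (A \ S i)) := by
            intro j _
            by_cases hj : j = i
            · rw [hj]
            · exact (E_mono hw subset_rfl Finset.sdiff_subset).trans
                (hmove i j (Ne.symm hj) _ hZsub)
          have h7 := Finset.sum_le_card_nsmul _ _ _ h6
          simpa using h7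
        have hdec : part f i \ (A \ S i) = (part f i \ A) ∪ (A ∩ S i) := by
          ext v
          simp only [mem_sdiff, mem_union, mem_inter]
          constructor
          · rintro ⟨h1, h2⟩
            by_cases hv : v ∈ A
            · exact Or.inr ⟨hv, by tauto⟩
            · exact Or.inl ⟨h1, hv⟩
          · rintro (⟨h1, h2⟩ | ⟨h1, h2⟩)
            · exact ⟨h1, fun h => h2 h.1⟩
            · exact ⟨hA h1, fun h => h.2 h2⟩
        have hdis : Disjoint (part f i \ A) (A ∩ S i) := by
          rw [Finset.disjoint_left]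
          intro v hv hv'
          exact (Finset.mem_sdiff.1 hv).2 (Finset.mem_inter.1 hv').1
        rw [hdec, E_union_right _ hdis] at hcut2
        have h8 : E w (A \ S i) (part f i \ A) ≤ E w A (part f i \ A) :=
          E_mono hw Finset.sdiff_subset subset_rfl
        have h9 : E w (A \ S i) (A ∩ S i) ≤ E w (A ∩ S i) univ := by
          rw [E_comm hs]
          exact E_mono hw subset_rfl (Finset.subset_univ _)
        have h10 : (l : ℝ) * (a * E w (A \ S i) univ) ≤
            l * (E w A (part f i \ A) + E w (A ∩ S i) univ) := by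
          have h11 : (l : ℝ) * (a * E w (A \ S i) univ) ≤ t' * E w (A \ S i) univ := by
            rw [← mul_assoc]
            exact mul_le_mul_of_nonneg_right ha1 hZ0
          have h12 : (l : ℝ) * (E w (A \ S i) (part f i \ A) + E w (A \ S i) (A ∩ S i)) ≤
              l * (E w A (part f i \ A) + E w (A ∩ S i) univ) :=
            mul_le_mul_of_nonneg_left (by linarith) (by linarith)
          linarith
        exact le_of_mul_le_mul_left h10 (by linarith)
    -- combine
    have k1 : b * (a * E w (A \ S i) univ) ≤ 2 * E w A (part f i \ A) := by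
      have : b * (a * E w (A \ S i) univ) ≤ b * (E w A (part f i \ A) + E w (A ∩ S i) univ) :=
        mul_le_mul_of_nonneg_left hZb hb0.le
      nlinarith
    have k2 : a * (b * E w (A ∩ S i) univ) ≤ E w A (part f i \ A) := by
      have : a * (b * E w (A ∩ S i) univ) ≤ 1 * (b * E w (A ∩ S i) univ) :=
        mul_le_mul_of_nonneg_right ha2 (mul_nonneg hb0.le hX0)
      linarith
    rw [hvolA]
    nlinarith
  intro i B hB
  have hX : B ∩ S i ⊆ S i := Finset.inter_subset_right
  have hXB : S i \ (B ∩ S i) ⊆ part f i \ B := by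
    intro v hv
    rw [Finset.mem_sdiff, Finset.mem_inter] at hv
    rw [Finset.mem_sdiff]
    exact ⟨hSf i hv.1, fun h => hv.2 ⟨h, hv.1⟩⟩
  have hEX : E w (B ∩ S i) (S i \ (B ∩ S i)) ≤ E w B (part f i \ B) :=
    E_mono hw Finset.inter_subset_left hXB
  rcases core_expand hκ hk hw hs htt.le hS hmin hno hX with h | h
  · left
    exact hmain i B hB (h.trans hEX)
  · right
    have hBB : part f i \ (part f i \ B) = B := by
      rw [Finset.sdiff_sdiff_eq_self hB]
    have h1 := hmain i (part f i \ B) Finset.sdiff_subset (by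
      rw [hBB, E_comm hs (part f i \ B) B]
      have e : (part f i \ B) ∩ S i = S i \ (B ∩ S i) := by
        ext v
        simp only [mem_inter, mem_sdiff]
        constructor
        · rintro ⟨⟨h1, h2⟩, h3⟩
          exact ⟨h3, fun h => h2 h.1⟩
        · rintro ⟨h1, h2⟩
          exact ⟨⟨hSf i h1, fun h => h2 ⟨h, h1⟩⟩, h1⟩
      rw [e]
      exact h.trans hEX)
    rw [hBB, E_comm hs (part f i \ B) B] at h1
    exact h1

end Pool.Agent.H85.Thin
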