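import Pool.Agent.H85.Thin.Tree
import Pool.Agent.H85.Thin.Part

/-!
# Glueing the trees of the parts
-/

set_option linter.unusedSectionVars false

namespace Pool.Agent.H85.Thin

open Finset

variable {V : Type} [Fintype V] [DecidableEq V] {w : V → V → ℝ}

/-- tree edges inside one part which cross `A`: the count is bounded by the small side -/
theorem count_part {κ φ : ℝ} (hκ : 0 < κ) (hφ : 0 < φ) (hφ1 : φ ≤ 1)
    (hk : ∀ v, κ ≤ E w {v} univ) (hw : ∀ u v, 0 ≤ w u v) {U : Finset V} {root : V}
    {par : V → V} {rk : V → ℕ}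
    (hT : GoodTree w (fun s => 2 * cap w (φ * κ) s) root U par rk)
    {B : Finset V} {X Y : Finset V} (hX : X ⊆ B)
    (hY : ∀ x ∈ Y, x ∈ U ∧ x ≠ root ∧ par x ∈ B) :
    ((X.card + Y.card : ℕ) : ℝ) ≤ 5 / (φ * κ) * E w B univ := by
  have hq : 0 < φ * κ := mul_pos hφ hκ
  have h1 : X.card ≤ ∑ s ∈ B, 1 := by
    rw [Finset.sum_const, smul_eq_mul, mul_one]
    exact Finset.card_le_card hX
  have h2 : Y.card ≤ ∑ s ∈ B, 2 * cap w (φ * κ) s := by
    have h3 : Y.card = ∑ s ∈ B, (Y.filter fun x => par x = s).card :=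
      Finset.card_eq_sum_card_fiberwise fun x hx => (hY x hx).2.2
    rw [h3]
    refine Finset.sum_le_sum fun s _ => ?_
    refine le_trans (Finset.card_le_card ?_) (hT.2.2 s)
    intro x hx
    rw [Finset.mem_filter] at hx
    rw [Finset.mem_filter, Finset.mem_erase]
    exact ⟨⟨(hY x hx.1).2.1, (hY x hx.1).1⟩, hx.2⟩
  have h4 : ((X.card + Y.card : ℕ) : ℝ) ≤ ∑ s ∈ B, ((1 : ℝ) + 2 * cap w (φ * κ) s) := by
    have h5 : X.card + Y.card ≤ ∑ s ∈ B, (1 + 2 * cap w (φ * κ) s) := by
      rw [Finset.sum_add_distrib]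
      omega
    exact_mod_cast h5
  refine h4.trans ?_
  rw [E_sum_left B univ, Finset.mul_sum]
  refine Finset.sum_le_sum fun s _ => ?_
  have h6 := cap_le hq hw s
  have h7 : 1 ≤ E w {s} univ / (φ * κ) := by
    rw [le_div_iff₀ hq, one_mul]
    have : φ * κ ≤ 1 * κ := mul_le_mul_of_nonneg_right hφ1 hκ.le
    linarith [hk s]
  have h8 : 5 / (φ * κ) * E w {s} univ = 5 * (E w {s} univ / (φ * κ)) := by ring
  rw [h8]
  linarith

theorem exists_thin [Nonempty V] {κ φ : ℝ} (hκ : 0 < κ) (hφ : 0 < φ) (hφ1 : φ ≤ 1)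
    (hk : ∀ v, κ ≤ E w {v} univ) (hw : ∀ u v, 0 ≤ w u v) (hs : ∀ u v, w u v = w v u)
    (hconn : ∀ A : Finset V, A.Nonempty → A ≠ univ → 0 < cut w A)
    {l : ℕ} (f : V → Fin l) (hne : ∀ i, (part f i).Nonempty)
    (hexp : ∀ i, ∀ B ⊆ part f i,
      φ * E w B univ ≤ E w B (part f i \ B) ∨ φ * E w (part f i \ B) univ ≤ E w B (part f i \ B)) :
    ∃ T : SimpleGraph V, T.IsTree ∧ (∀ u v, T.Adj u v → 0 < w u v) ∧
      ∀ A : Finset V, (Set.ncard {p : V × V | p.1 ∈ A ∧ p.2 ∉ A ∧ T.Adj p.1 p.2} : ℝ) ≤
        5 / (φ ^ 2 * κ) * cut w A + 2 * (l : ℝ) ^ 2 := by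
  classical
  choose root hroot using hne
  choose par rk hT using fun i => exists_tree hκ hφ hk hw hs (hroot i) (hexp i)
  have hab : ∀ i j : Fin l, ∃ p : V × V,
      (∃ u v, f u = i ∧ f v = j ∧ 0 < w u v) → f p.1 = i ∧ f p.2 = j ∧ 0 < w p.1 p.2 := by
    intro i j
    by_cases h : ∃ u v, f u = i ∧ f v = j ∧ 0 < w u v
    · obtain ⟨u, v, h1⟩ := h
      exact ⟨(u, v), fun _ => h1⟩
    · exact ⟨(Classical.arbitrary V, Classical.arbitrary V), fun h' => absurd h' h⟩
  choose ab hab using hab
  let R : V → V → Prop := fun x y =>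
    (x ≠ root (f x) ∧ y = par (f x) x) ∨ ∃ i j, ab i j = (x, y) ∧ 0 < w x y
  have hRw : ∀ x y, R x y → 0 < w x y := by
    rintro x y (⟨h1, rfl⟩ | ⟨i, j, _, h⟩)
    · exact ((hT (f x)).2.1 x (mem_part.2 rfl) h1).2.1
    · exact h
  let H : SimpleGraph V := SimpleGraph.fromRel R
  have hHadj : ∀ x y, H.Adj x y ↔ x ≠ y ∧ (R x y ∨ R y x) := fun x y => Iff.rfl
  have hHw : ∀ u v, H.Adj u v → 0 < w u v := by
    intro u v h
    rcases ((hHadj u v).1 h).2 with h | h
    · exact hRw u v h
    · rw [hs u v]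
      exact hRw v u h
  -- every vertex reaches the root of its part
  have hreach : ∀ n, ∀ x, rk (f x) x = n → H.Reachable x (root (f x)) := by
    intro n
    induction n using Nat.strong_induction_on with
    | _ n ih =>
      intro x hx
      by_cases hxr : x = root (f x)
      · rw [← hxr]
      · obtain ⟨a1, a2, a3⟩ := (hT (f x)).2.1 x (mem_part.2 rfl) hxr
        have hfy : f (par (f x) x) = f x := mem_part.1 a1
        have h1 := ih (rk (f x) (par (f x) x)) (by rw [← hx]; exact a3) (par (f x) x)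
          (by rw [hfy])
        rw [hfy] at h1
        have hadj : H.Adj x (par (f x) x) := by
          rw [hHadj]
          refine ⟨fun e => ?_, Or.inl (Or.inl ⟨hxr, rfl⟩)⟩
          rw [← e] at a3
          exact lt_irrefl _ a3
        exact hadj.reachable.trans h1
  have hreach' : ∀ x y, f x = f y → H.Reachable x y := by
    intro x y hxy
    have h1 := hreach _ x rfl
    have h2 := hreach _ y rfl
    rw [hxy] at h1
    exact h1.trans h2.symm
  have hconnH : H.Connected := by
    rw [SimpleGraph.connected_iff]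
    refine ⟨fun x0 y0 => ?_, inferInstance⟩
    by_contra hnot
    let A : Finset V := univ.filter fun x => H.Reachable x0 x
    have hA1 : A.Nonempty := ⟨x0, by simp [A]⟩
    have hA2 : A ≠ univ := by
      intro h
      have : y0 ∈ A := by rw [h]; exact Finset.mem_univ _
      exact hnot (by simpa [A] using this)
    have h1 := hconn A hA1 hA2
    have h2 : ∃ u ∈ A, ∃ v ∈ univ \ A, 0 < w u v := by
      by_contra hno
      push Not at hno
      have : cut w A ≤ 0 :=
        Finset.sum_nonpos fun u hu => Finset.sum_nonpos fun v hv => hno u hu v hv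
      linarith
    obtain ⟨u, hu, v, hv, huv⟩ := h2
    have hu' : H.Reachable x0 u := by simpa [A] using hu
    have hv' : ¬ H.Reachable x0 v := by simpa [A] using hv
    apply hv'
    obtain ⟨b1, b2, b3⟩ := hab (f u) (f v) ⟨u, v, rfl, rfl, huv⟩
    have h3 : H.Reachable u (ab (f u) (f v)).1 := hreach' _ _ b1.symm
    have h4 : H.Reachable (ab (f u) (f v)).2 v := hreach' _ _ b2
    have h5 : H.Reachable (ab (f u) (f v)).1 (ab (f u) (f v)).2 := by
      by_cases he : (ab (f u) (f v)).1 = (ab (f u) (f v)).2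
      · rw [he]
      · refine SimpleGraph.Adj.reachable ?_
        rw [hHadj]
        exact ⟨he, Or.inl (Or.inr ⟨f u, f v, rfl, b3⟩)⟩
    exact ((hu'.trans h3).trans h5).trans h4
  obtain ⟨T, hTH, hTT⟩ := hconnH.exists_isTree_le
  refine ⟨T, hTT, fun u v h => hHw u v (hTH h), fun A => ?_⟩
  -- the crossing pairs
  let X1 : Finset V := univ.filter fun x => x ≠ root (f x) ∧ x ∈ A ∧ par (f x) x ∉ A
  let X2 : Finset V := univ.filter fun x => x ≠ root (f x) ∧ x ∉ A ∧ par (f x) x ∈ A
  have hsub : {p : V × V | p.1 ∈ A ∧ p.2 ∉ A ∧ T.Adj p.1 p.2} ⊆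
      (((X1.image fun x => (x, par (f x) x)) ∪ (X2.image fun x => (par (f x) x, x))) ∪
        (((univ : Finset (Fin l × Fin l)).image fun q => ab q.1 q.2) ∪
          ((univ : Finset (Fin l × Fin l)).image fun q => (ab q.1 q.2).swap)) :
            Finset (V × V)) := by
    rintro ⟨u, v⟩ ⟨hu, hv, huv⟩
    have h1 := ((hHadj u v).1 (hTH huv)).2
    rw [Finset.mem_coe, Finset.mem_union, Finset.mem_union, Finset.mem_union]
    simp only at hu hv
    rcases h1 with (⟨h1, h2⟩ | ⟨i, j, h1, _⟩) | (⟨h1, h2⟩ | ⟨i, j, h1, _⟩)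
    · left; left
      rw [Finset.mem_image]
      refine ⟨u, ?_, by rw [h2]⟩
      simp only [X1, mem_filter, mem_univ, true_and]
      rw [← h2]
      exact ⟨h1, hu, hv⟩
    · right; left
      rw [Finset.mem_image]
      exact ⟨(i, j), Finset.mem_univ _, h1⟩
    · left; right
      rw [Finset.mem_image]
      refine ⟨v, ?_, by rw [h2]⟩
      simp only [X2, mem_filter, mem_univ, true_and]
      rw [← h2]
      exact ⟨h1, hv, hu⟩
    · right; right
      rw [Finset.mem_image]
      refine ⟨(i, j), Finset.mem_univ _, ?_⟩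
      simp only [h1]
      rfl
  have hcount : Set.ncard {p : V × V | p.1 ∈ A ∧ p.2 ∉ A ∧ T.Adj p.1 p.2} ≤
      (X1.card + X2.card) + (l ^ 2 + l ^ 2) := by
    refine (Set.ncard_le_ncard hsub (Finset.finite_toSet _)).trans ?_
    rw [Set.ncard_coe_finset]
    refine (Finset.card_union_le _ _).trans (add_le_add ?_ ?_)
    · exact (Finset.card_union_le _ _).trans (add_le_add Finset.card_image_le Finset.card_image_le)
    · refine (Finset.card_union_le _ _).trans (add_le_add ?_ ?_)
      · refine Finset.card_image_le.trans (le_of_eq ?_)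
        rw [Finset.card_univ, Fintype.card_prod, Fintype.card_fin, sq]
      · refine Finset.card_image_le.trans (le_of_eq ?_)
        rw [Finset.card_univ, Fintype.card_prod, Fintype.card_fin, sq]
  -- the tree edges of the parts
  have hparts : ((X1.card + X2.card : ℕ) : ℝ) ≤ 5 / (φ ^ 2 * κ) * cut w A := by
    have e1 : X1.card = ∑ i, (X1.filter fun x => f x = i).card :=
      Finset.card_eq_sum_card_fiberwise fun x _ => Finset.mem_univ _
    have e2 : X2.card = ∑ i, (X2.filter fun x => f x = i).card :=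
      Finset.card_eq_sum_card_fiberwise fun x _ => Finset.mem_univ _
    have e3 : ((X1.card + X2.card : ℕ) : ℝ) =
        ∑ i, (((X1.filter fun x => f x = i).card + (X2.filter fun x => f x = i).card : ℕ) : ℝ) := by
      rw [e1, e2, ← Finset.sum_add_distrib, Nat.cast_sum]
    have hone : ∀ i, (((X1.filter fun x => f x = i).card + (X2.filter fun x => f x = i).card : ℕ) : ℝ)
        ≤ 5 / (φ ^ 2 * κ) * E w (part f i ∩ A) (part f i \ A) := by
      intro i
      have hB : part f i ∩ A ⊆ part f i := Finset.inter_subset_left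
      have hsd : part f i \ (part f i ∩ A) = part f i \ A := by
        ext v
        simp only [mem_sdiff, mem_inter]
        tauto
      have c1 := count_part hκ hφ hφ1 hk hw (hT i) (B := part f i ∩ A)
        (X := X1.filter fun x => f x = i) (Y := X2.filter fun x => f x = i)
        (by
          intro x hx
          simp only [X1, mem_filter, mem_univ, true_and] at hx
          rw [Finset.mem_inter, mem_part]
          exact ⟨hx.2, hx.1.2.1⟩)
        (by
          intro x hx
          simp only [X2, mem_filter, mem_univ, true_and] at hx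
          obtain ⟨⟨h1, _, h3⟩, h4⟩ := hx
          subst h4
          refine ⟨mem_part.2 rfl, h1, Finset.mem_inter.2 ⟨?_, h3⟩⟩
          exact ((hT (f x)).2.1 x (mem_part.2 rfl) h1).1)
      have c2 := count_part hκ hφ hφ1 hk hw (hT i) (B := part f i \ A)
        (X := X2.filter fun x => f x = i) (Y := X1.filter fun x => f x = i)
        (by
          intro x hx
          simp only [X2, mem_filter, mem_univ, true_and] at hx
          rw [Finset.mem_sdiff, mem_part]
          exact ⟨hx.2, hx.1.2.1⟩)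
        (by
          intro x hx
          simp only [X1, mem_filter, mem_univ, true_and] at hx
          obtain ⟨⟨h1, _, h3⟩, h4⟩ := hx
          subst h4
          refine ⟨mem_part.2 rfl, h1, Finset.mem_sdiff.2 ⟨?_, h3⟩⟩
          exact ((hT (f x)).2.1 x (mem_part.2 rfl) h1).1)
      have hpos : 0 ≤ 5 / (φ * κ) := by positivity
      have e4 : 5 / (φ ^ 2 * κ) = 5 / (φ * κ) * (1 / φ) := by
        field_simp
      rcases hexp i _ hB with h | h
      · rw [hsd] at h
        have h5 : E w (part f i ∩ A) univ ≤ 1 / φ * E w (part f i ∩ A) (part f i \ A) := by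
          rw [one_div, ← div_eq_inv_mul, le_div_iff₀ hφ, mul_comm]
          exact h
        rw [e4, mul_assoc]
        exact c1.trans (mul_le_mul_of_nonneg_left h5 hpos)
      · rw [hsd] at h
        have h5 : E w (part f i \ A) univ ≤ 1 / φ * E w (part f i ∩ A) (part f i \ A) := by
          rw [one_div, ← div_eq_inv_mul, le_div_iff₀ hφ, mul_comm]
          exact h
        rw [e4, mul_assoc, add_comm]
        exact c2.trans (mul_le_mul_of_nonneg_left h5 hpos)
    rw [e3]
    refine (Finset.sum_le_sum fun i _ => hone i).trans ?_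
    rw [← Finset.mul_sum]
    refine mul_le_mul_of_nonneg_left ?_ (by positivity)
    -- sum of the inner cuts
    have h6 : ∑ i, E w (part f i ∩ A) (part f i \ A) ≤ ∑ i, E w (part f i ∩ A) (univ \ A) :=
      Finset.sum_le_sum fun i _ =>
        E_mono hw subset_rfl (Finset.sdiff_subset_sdiff (Finset.subset_univ _) subset_rfl)
    refine h6.trans (le_of_eq ?_)
    unfold cut E
    rw [← Finset.sum_fiberwise_of_maps_to (s := A) (t := univ) (g := f)
      (fun v _ => Finset.mem_univ _)]
    refine Finset.sum_congr rfl fun i _ => ?_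
    refine Finset.sum_congr ?_ fun _ _ => rfl
    ext v
    simp only [mem_inter, mem_filter, mem_part]
    tauto
  have hfin : (Set.ncard {p : V × V | p.1 ∈ A ∧ p.2 ∉ A ∧ T.Adj p.1 p.2} : ℝ) ≤
      ((X1.card + X2.card : ℕ) : ℝ) + ((l : ℝ) ^ 2 + (l : ℝ) ^ 2) := by
    have := hcount
    exact_mod_cast this
  linarith

end Pool.Agent.H85.Thin
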