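import Pool.Agent.H85.Thin.Basic

/-!
# Spanning structures of bounded relative degree in expanding sets

If `U` expands internally (with respect to the volumes of the whole graph) and all degrees are at
least `κ`, then `U` has a spanning tree (given by a parent function) in which every vertex `s` has at
most `2 * ⌈deg s / (φ κ)⌉` children.
-/

set_option linter.unusedSectionVars false

namespace Pool.Agent.H85.Thin

open Finset

variable {V : Type} [Fintype V] [DecidableEq V] {w : V → V → ℝ}

/-- the capacity of a vertex -/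
noncomputable def cap (w : V → V → ℝ) (q : ℝ) (s : V) : ℕ := ⌈E w {s} univ / q⌉₊

theorem le_cap {q : ℝ} (hq : 0 < q) (s : V) : E w {s} univ ≤ q * cap w q s := by
  have h := Nat.le_ceil (E w {s} univ / q)
  rw [div_le_iff₀ hq] at h
  rw [mul_comm]
  exact h

theorem cap_le {q : ℝ} (hq : 0 < q) (hw : ∀ u v, 0 ≤ w u v) (s : V) :
    (cap w q s : ℝ) ≤ E w {s} univ / q + 1 :=
  (Nat.ceil_lt_add_one (div_nonneg (E_nonneg hw _ _) hq.le)).le

/-- a partial tree: parent function, ranks, numbers of children -/
def GoodTree (w : V → V → ℝ) (c : V → ℕ) (root : V) (S : Finset V) (par : V → V) (rk : V → ℕ) :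
    Prop :=
  root ∈ S ∧ (∀ x ∈ S, x ≠ root → par x ∈ S ∧ 0 < w x (par x) ∧ rk (par x) < rk x) ∧
    ∀ s, ((S.erase root).filter fun x => par x = s).card ≤ c s

theorem goodTree_insert {c : V → ℕ} {root : V} {S : Finset V} {par : V → V} {rk : V → ℕ}
    (h : GoodTree w c root S par rk) {x s : V} (hx : x ∉ S) (hs : s ∈ S) (hxs : 0 < w x s)
    (hc : ((S.erase root).filter fun x => par x = s).card < c s) :
    GoodTree w c root (insert x S) (Function.update par x s) (Function.update rk x (rk s + 1)) := by
  obtain ⟨hr, h1, h2⟩ := h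
  have hsx : s ≠ x := fun e => hx (e ▸ hs)
  have hrx : root ≠ x := fun e => hx (e ▸ hr)
  refine ⟨Finset.mem_insert_of_mem hr, fun y hy hyr => ?_, fun s' => ?_⟩
  · rcases Finset.mem_insert.1 hy with rfl | hyS
    · rw [Function.update_self, Function.update_self, Function.update_of_ne hsx]
      exact ⟨Finset.mem_insert_of_mem hs, hxs, Nat.lt_succ_self _⟩
    · have hyx : y ≠ x := fun e => hx (e ▸ hyS)
      obtain ⟨a1, a2, a3⟩ := h1 y hyS hyr
      have hpx : par y ≠ x := fun e => hx (e ▸ a1)
      rw [Function.update_of_ne hyx, Function.update_of_ne hyx, Function.update_of_ne hpx]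
      exact ⟨Finset.mem_insert_of_mem a1, a2, a3⟩
  · by_cases hss : s' = s
    · subst hss
      have hsub : ((insert x S).erase root).filter (fun y => Function.update par x s' y = s') ⊆
          insert x ((S.erase root).filter fun y => par y = s') := by
        intro y hy
        rw [Finset.mem_filter, Finset.mem_erase, Finset.mem_insert] at hy
        rw [Finset.mem_insert, Finset.mem_filter, Finset.mem_erase]
        by_cases hyx : y = x
        · exact Or.inl hyx
        · right
          rw [Function.update_of_ne hyx] at hy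
          exact ⟨⟨hy.1.1, hy.1.2.resolve_left hyx⟩, hy.2⟩
      have h3 := (Finset.card_le_card hsub).trans (Finset.card_insert_le _ _)
      omega
    · have hsub : ((insert x S).erase root).filter (fun y => Function.update par x s y = s') ⊆
          (S.erase root).filter fun y => par y = s' := by
        intro y hy
        rw [Finset.mem_filter, Finset.mem_erase, Finset.mem_insert] at hy
        rw [Finset.mem_filter, Finset.mem_erase]
        by_cases hyx : y = x
        · subst hyx
          rw [Function.update_self] at hy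
          exact absurd hy.2.symm hss
        · rw [Function.update_of_ne hyx] at hy
          exact ⟨⟨hy.1.1, hy.1.2.resolve_left hyx⟩, hy.2⟩
      exact (Finset.card_le_card hsub).trans (h2 s')

/-- phase 1: greedy growth up to half of the volume -/
theorem exists_half {κ φ : ℝ} (hκ : 0 < κ) (hφ : 0 < φ) (hk : ∀ v, κ ≤ E w {v} univ)
    (hw : ∀ u v, 0 ≤ w u v) (hs : ∀ u v, w u v = w v u) {U : Finset V} {root : V} (hroot : root ∈ U)
    (hU : ∀ B ⊆ U, φ * E w B univ ≤ E w B (U \ B) ∨ φ * E w (U \ B) univ ≤ E w B (U \ B)) :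
    ∃ S ⊆ U, (∃ par rk, GoodTree w (cap w (φ * κ)) root S par rk) ∧
      E w (U \ S) univ ≤ E w S univ := by
  classical
  have hq : 0 < φ * κ := mul_pos hφ hκ
  have hne : ((U.powerset).filter fun S => ∃ par rk, GoodTree w (cap w (φ * κ)) root S par rk).Nonempty := by
    refine ⟨{root}, ?_⟩
    rw [Finset.mem_filter, Finset.mem_powerset, Finset.singleton_subset_iff]
    refine ⟨hroot, fun x => x, fun _ => 0, Finset.mem_singleton_self _, fun x hx hxr => ?_, fun s => ?_⟩
    · exact absurd (Finset.mem_singleton.1 hx) hxr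
    · simp
  obtain ⟨S, hS, hmax⟩ := Finset.exists_max_image _ Finset.card hne
  rw [Finset.mem_filter, Finset.mem_powerset] at hS
  obtain ⟨hSU, par, rk, hG⟩ := hS
  refine ⟨S, hSU, ⟨par, rk, hG⟩, ?_⟩
  by_contra hcon
  push Not at hcon
  have hSn : S.Nonempty := ⟨root, hG.1⟩
  have hexp : φ * E w S univ ≤ E w S (U \ S) := by
    rcases hU S hSU with h | h
    · exact h
    · exact (mul_le_mul_of_nonneg_left hcon.le hφ.le).trans h
  -- saturated vertices
  set ch : V → ℕ := fun s => ((S.erase root).filter fun x => par x = s).card with hch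
  set Q : Finset V := S.filter fun s => cap w (φ * κ) s ≤ ch s with hQ
  have hQS : Q ⊆ S := Finset.filter_subset _ _
  have hsumch : ∑ s ∈ Q, ch s ≤ (S.erase root).card := by
    have h1 : ∑ s ∈ Q, ch s ≤ ∑ s, ch s :=
      Finset.sum_le_sum_of_subset (Finset.subset_univ _)
    have h2 : (S.erase root).card = ∑ s, ch s :=
      Finset.card_eq_sum_card_fiberwise (fun x _ => Finset.mem_univ (par x))
    omega
  have hcard : (S.erase root).card + 1 = S.card := Finset.card_erase_add_one hG.1
  have hvolQ : E w Q univ ≤ (φ * κ) * ((S.card : ℝ) - 1) := by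
    rw [E_sum_left]
    have h1 : ∑ v ∈ Q, E w {v} univ ≤ ∑ v ∈ Q, (φ * κ) * (ch v : ℝ) := by
      refine Finset.sum_le_sum fun v hv => (le_cap hq v).trans ?_
      refine mul_le_mul_of_nonneg_left ?_ hq.le
      exact_mod_cast (Finset.mem_filter.1 hv).2
    refine h1.trans ?_
    rw [← Finset.mul_sum]
    refine mul_le_mul_of_nonneg_left ?_ hq.le
    have h2 : ((∑ s ∈ Q, ch s : ℕ) : ℝ) ≤ ((S.erase root).card : ℝ) := by exact_mod_cast hsumch
    have h3 : ((S.erase root).card : ℝ) + 1 = S.card := by exact_mod_cast hcard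
    rw [Nat.cast_sum] at h2
    linarith
  have hvolS : κ * S.card ≤ E w S univ := card_le_vol hk S
  have hlt : E w Q univ < E w S (U \ S) := by
    have h1 : (φ * κ) * ((S.card : ℝ) - 1) < φ * E w S univ := by
      have h2 : φ * (κ * S.card) ≤ φ * E w S univ := mul_le_mul_of_nonneg_left hvolS hφ.le
      nlinarith
    linarith
  -- an edge from an unsaturated vertex
  have hex : ∃ s ∈ S \ Q, ∃ x ∈ U \ S, 0 < w s x := by
    by_contra hno
    push Not at hno
    have h1 : E w (S \ Q) (U \ S) ≤ 0 := by
      unfold E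
      refine Finset.sum_nonpos fun s hs' => Finset.sum_nonpos fun x hx => hno s hs' x hx
    have h2 : E w S (U \ S) = E w Q (U \ S) + E w (S \ Q) (U \ S) := E_split_left hQS _
    have h3 : E w Q (U \ S) ≤ E w Q univ := E_mono hw subset_rfl (Finset.subset_univ _)
    linarith
  obtain ⟨s, hsS, x, hx, hsx⟩ := hex
  rw [Finset.mem_sdiff] at hsS hx
  have hunsat : ch s < cap w (φ * κ) s := by
    by_contra h
    push Not at h
    exact hsS.2 (Finset.mem_filter.2 ⟨hsS.1, h⟩)
  rw [hs s x] at hsx
  have hG' := goodTree_insert hG hx.2 hsS.1 hsx hunsat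
  have h1 := hmax (insert x S) (by
    rw [Finset.mem_filter, Finset.mem_powerset]
    exact ⟨Finset.insert_subset hx.1 hSU, _, _, hG'⟩)
  rw [Finset.card_insert_of_notMem hx.2] at h1
  omega

/-- phase 2: an order of the remaining vertices in which all back-degrees are large -/
theorem exists_order {φ : ℝ} (hw : ∀ u v, 0 ≤ w u v) (hs : ∀ u v, w u v = w v u)
    {U S : Finset V} (hSU : S ⊆ U)
    (hU : ∀ B ⊆ U, φ * E w B univ ≤ E w B (U \ B) ∨ φ * E w (U \ B) univ ≤ E w B (U \ B))
    (hφ : 0 < φ) (hhalf : E w (U \ S) univ ≤ E w S univ) :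
    ∃ idx : V → ℕ, (∀ u ∈ S, idx u = 0) ∧
      ∀ v ∈ U \ S, φ * E w {v} univ ≤ E w {v} (U.filter fun u => idx u < idx v) := by
  classical
  have hne : ((U.powerset).filter fun T => S ⊆ T ∧ ∃ idx : V → ℕ, (∀ u ∈ S, idx u = 0) ∧
      ∀ v ∈ T \ S, φ * E w {v} univ ≤ E w {v} (T.filter fun u => idx u < idx v)).Nonempty := by
    refine ⟨S, ?_⟩
    rw [Finset.mem_filter, Finset.mem_powerset]
    refine ⟨hSU, subset_rfl, fun _ => 0, fun _ _ => rfl, fun v hv => ?_⟩
    rw [Finset.sdiff_self] at hv
    exact absurd hv (Finset.notMem_empty _)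
  obtain ⟨T, hT, hmax⟩ := Finset.exists_max_image _ Finset.card hne
  rw [Finset.mem_filter, Finset.mem_powerset] at hT
  obtain ⟨hTU, hST, idx, hidx0, hidx⟩ := hT
  by_cases hUT : T = U
  · subst hUT
    exact ⟨idx, hidx0, hidx⟩
  exfalso
  have hRn : (U \ T).Nonempty := by
    rw [Finset.sdiff_nonempty]
    exact fun h => hUT (Finset.Subset.antisymm hTU h)
  have hle : E w (U \ T) univ ≤ E w T univ := by
    have h1 : E w (U \ T) univ ≤ E w (U \ S) univ :=
      E_mono hw (Finset.sdiff_subset_sdiff subset_rfl hST) subset_rfl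
    have h2 : E w S univ ≤ E w T univ := E_mono hw hST subset_rfl
    linarith
  have hexp : φ * E w (U \ T) univ ≤ E w (U \ T) T := by
    rw [E_comm hs (U \ T) T]
    rcases hU T hTU with h | h
    · exact (mul_le_mul_of_nonneg_left hle hφ.le).trans h
    · exact h
  have hex : ∃ v ∈ U \ T, φ * E w {v} univ ≤ E w {v} T := by
    by_contra hno
    push Not at hno
    have h1 : E w (U \ T) T < φ * E w (U \ T) univ := by
      rw [E_sum_left (U \ T) T, E_sum_left (U \ T) univ, Finset.mul_sum]
      exact Finset.sum_lt_sum_of_nonempty hRn hno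
    linarith
  obtain ⟨v, hv, hvφ⟩ := hex
  rw [Finset.mem_sdiff] at hv
  have hvS : v ∉ S := fun h => hv.2 (hST h)
  have h1 := hmax (insert v T) (by
    rw [Finset.mem_filter, Finset.mem_powerset]
    refine ⟨Finset.insert_subset hv.1 hTU, hST.trans (Finset.subset_insert _ _),
      Function.update idx v (T.sup idx + 1), fun u hu => ?_, fun x hx => ?_⟩
    · have : u ≠ v := fun e => hvS (e ▸ hu)
      rw [Function.update_of_ne this]
      exact hidx0 u hu
    · rw [Finset.mem_sdiff, Finset.mem_insert] at hx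
      by_cases hxv : x = v
      · subst hxv
        refine hvφ.trans (E_mono hw subset_rfl fun u hu => ?_)
        have hux : u ≠ x := fun e => hv.2 (e ▸ hu)
        rw [Finset.mem_filter, Finset.mem_insert, Function.update_self, Function.update_of_ne hux]
        exact ⟨Or.inr hu, Nat.lt_succ_of_le (Finset.le_sup hu)⟩
      · have hxT : x ∈ T := hx.1.resolve_left hxv
        refine (hidx x (Finset.mem_sdiff.2 ⟨hxT, hx.2⟩)).trans (E_mono hw subset_rfl fun u hu => ?_)
        rw [Finset.mem_filter] at hu
        have huv : u ≠ v := fun e => hv.2 (e ▸ hu.1)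
        rw [Finset.mem_filter, Finset.mem_insert, Function.update_of_ne hxv,
          Function.update_of_ne huv]
        exact ⟨Or.inr hu.1, hu.2⟩)
  rw [Finset.card_insert_of_notMem hv.2] at h1
  omega

/-- phase 2: parents of the remaining vertices, by Hall's theorem -/
theorem exists_parents {κ φ : ℝ} (hκ : 0 < κ) (hφ : 0 < φ) (hk : ∀ v, κ ≤ E w {v} univ)
    (hw : ∀ u v, 0 ≤ w u v) (hs : ∀ u v, w u v = w v u) {U R : Finset V} (idx : V → ℕ)
    (hidx : ∀ v ∈ R, φ * E w {v} univ ≤ E w {v} (U.filter fun u => idx u < idx v)) :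
    ∃ g : V → V, (∀ v ∈ R, g v ∈ U ∧ idx (g v) < idx v ∧ 0 < w v (g v)) ∧
      ∀ s, (R.filter fun v => g v = s).card ≤ cap w (φ * κ) s := by
  classical
  have hq : 0 < φ * κ := mul_pos hφ hκ
  let tt : V → Finset V := fun v => U.filter fun u => idx u < idx v ∧ 0 < w v u
  have htt : ∀ v ∈ R, φ * κ ≤ E w {v} (tt v) := by
    intro v hv
    have h1 := hidx v hv
    have h2 : E w {v} (U.filter fun u => idx u < idx v) = E w {v} (tt v) := by
      rw [E_singleton, E_singleton]
      symm
      refine Finset.sum_subset (fun u hu => ?_) (fun u hu hu' => ?_)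
      · simp only [tt, mem_filter] at hu
        rw [Finset.mem_filter]
        exact ⟨hu.1, hu.2.1⟩
      · simp only [tt, mem_filter, not_and, not_lt] at hu hu'
        exact le_antisymm (hu' hu.1 hu.2) (hw v u)
    rw [← h2]
    exact (mul_le_mul_of_nonneg_left (hk v) hφ.le).trans h1
  let t : R → Finset (Σ s : V, Fin (cap w (φ * κ) s)) := fun v => (tt v).sigma fun _ => univ
  have hall : ∀ J : Finset R, J.card ≤ (J.biUnion t).card := by
    intro J
    let J' : Finset V := J.image Subtype.val
    have hJ' : J'.card = J.card := Finset.card_image_of_injective _ Subtype.val_injective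
    have hb : J.biUnion t = (J'.biUnion tt).sigma fun _ => univ := by
      ext ⟨a, b⟩
      simp only [t, J', mem_biUnion, mem_sigma, mem_univ, and_true, mem_image]
      constructor
      · rintro ⟨v, hv, h⟩
        exact ⟨v.1, ⟨v, hv, rfl⟩, h⟩
      · rintro ⟨_, ⟨v, hv, rfl⟩, h⟩
        exact ⟨v, hv, h⟩
    have hcardb : (J.biUnion t).card = ∑ s ∈ J'.biUnion tt, cap w (φ * κ) s := by
      rw [hb, Finset.card_sigma]
      simp
    rw [hcardb, ← hJ']
    have h1 : (φ * κ) * (J'.card : ℝ) ≤ (φ * κ) * (∑ s ∈ J'.biUnion tt, (cap w (φ * κ) s : ℝ)) := by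
      calc (φ * κ) * (J'.card : ℝ) = J'.card • (φ * κ) := by rw [nsmul_eq_mul, mul_comm]
        _ ≤ ∑ v ∈ J', E w {v} (tt v) := by
            refine Finset.card_nsmul_le_sum _ _ _ fun v hv => ?_
            obtain ⟨v', _, rfl⟩ := Finset.mem_image.1 hv
            exact htt _ v'.2
        _ ≤ ∑ v ∈ J', E w {v} (J'.biUnion tt) := by
            refine Finset.sum_le_sum fun v hv => E_mono hw subset_rfl ?_
            exact Finset.subset_biUnion_of_mem tt hv
        _ = E w J' (J'.biUnion tt) := (E_sum_left _ _).symm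
        _ = E w (J'.biUnion tt) J' := E_comm hs _ _
        _ ≤ E w (J'.biUnion tt) univ := E_mono hw subset_rfl (Finset.subset_univ _)
        _ = ∑ s ∈ J'.biUnion tt, E w {s} univ := E_sum_left _ _
        _ ≤ ∑ s ∈ J'.biUnion tt, (φ * κ) * (cap w (φ * κ) s : ℝ) :=
            Finset.sum_le_sum fun s _ => le_cap hq s
        _ = _ := by rw [Finset.mul_sum]
    have h2 := le_of_mul_le_mul_left h1 hq
    exact_mod_cast h2
  obtain ⟨F, hFinj, hF⟩ := (Finset.all_card_le_biUnion_card_iff_exists_injective t).1 hall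
  refine ⟨fun v => if h : v ∈ R then (F ⟨v, h⟩).1 else v, fun v hv => ?_, fun s => ?_⟩
  · simp only [dif_pos hv]
    have h1 := hF ⟨v, hv⟩
    simp only [t, mem_sigma, mem_univ, and_true, tt, mem_filter] at h1
    exact h1
  · have e : (R.filter fun v => (if h : v ∈ R then (F ⟨v, h⟩).1 else v) = s) =
        (((univ : Finset R).filter fun x => (F x).1 = s).image Subtype.val) := by
      ext v
      simp only [mem_filter, mem_image, mem_univ, true_and]
      constructor
      · rintro ⟨hv, h⟩
        rw [dif_pos hv] at h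
        exact ⟨⟨v, hv⟩, h, rfl⟩
      · rintro ⟨x, hx, rfl⟩
        refine ⟨x.2, ?_⟩
        rw [dif_pos x.2]
        exact hx
    rw [e, Finset.card_image_of_injective _ Subtype.val_injective,
      ← Finset.card_image_of_injective _ hFinj]
    have h2 : (((univ : Finset R).filter fun x => (F x).1 = s).image F) ⊆
        ({s} : Finset V).sigma fun _ => univ := by
      intro y hy
      obtain ⟨x, hx, rfl⟩ := Finset.mem_image.1 hy
      rw [Finset.mem_sigma, Finset.mem_singleton]
      exact ⟨(Finset.mem_filter.1 hx).2, Finset.mem_univ _⟩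
    refine (Finset.card_le_card h2).trans ?_
    rw [Finset.card_sigma]
    simp

/-- the spanning structure of an expanding set -/
theorem exists_tree {κ φ : ℝ} (hκ : 0 < κ) (hφ : 0 < φ) (hk : ∀ v, κ ≤ E w {v} univ)
    (hw : ∀ u v, 0 ≤ w u v) (hs : ∀ u v, w u v = w v u) {U : Finset V} {root : V} (hroot : root ∈ U)
    (hU : ∀ B ⊆ U, φ * E w B univ ≤ E w B (U \ B) ∨ φ * E w (U \ B) univ ≤ E w B (U \ B)) :
    ∃ (par : V → V) (rk : V → ℕ), GoodTree w (fun s => 2 * cap w (φ * κ) s) root U par rk := by
  classical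
  obtain ⟨S, hSU, ⟨par, rk, hG⟩, hhalf⟩ := exists_half hκ hφ hk hw hs hroot hU
  obtain ⟨idx, hidx0, hidx⟩ := exists_order hw hs hSU hU hφ hhalf
  obtain ⟨g, hg, hgc⟩ := exists_parents (R := U \ S) hκ hφ hk hw hs idx hidx
  refine ⟨fun v => if v ∈ S then par v else g v,
    fun v => if v ∈ S then rk v else S.sup rk + 1 + idx v, hroot, fun x hx hxr => ?_, fun s => ?_⟩
  · by_cases hxS : x ∈ S
    · obtain ⟨a1, a2, a3⟩ := hG.2.1 x hxS hxr
      simp only [if_pos hxS, if_pos a1]
      exact ⟨hSU a1, a2, a3⟩
    · obtain ⟨a1, a2, a3⟩ := hg x (Finset.mem_sdiff.2 ⟨hx, hxS⟩)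
      simp only [if_neg hxS]
      refine ⟨a1, a3, ?_⟩
      by_cases hgS : g x ∈ S
      · rw [if_pos hgS]
        have := Finset.le_sup (f := rk) hgS
        omega
      · rw [if_neg hgS]
        omega
  · have hsub : ((U.erase root).filter fun x => (if x ∈ S then par x else g x) = s) ⊆
        ((S.erase root).filter fun x => par x = s) ∪ ((U \ S).filter fun v => g v = s) := by
      intro x hx
      rw [Finset.mem_filter, Finset.mem_erase] at hx
      rw [Finset.mem_union, Finset.mem_filter, Finset.mem_filter, Finset.mem_erase,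
        Finset.mem_sdiff]
      by_cases hxS : x ∈ S
      · rw [if_pos hxS] at hx
        exact Or.inl ⟨⟨hx.1.1, hxS⟩, hx.2⟩
      · rw [if_neg hxS] at hx
        exact Or.inr ⟨⟨hx.1.2, hxS⟩, hx.2⟩
    have h1 := (Finset.card_le_card hsub).trans (Finset.card_union_le _ _)
    have h2 := hG.2.2 s
    have h3 := hgc s
    show ((U.erase root).filter fun x => (if x ∈ S then par x else g x) = s).card ≤
      2 * cap w (φ * κ) s
    omega

end Pool.Agent.H85.Thin
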